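import Pool.Agent.Helper20.FP.Fin

/-!
# Holomorphic curves depending on few parameters in very general varieties

Let `k` be a subfield of the complex numbers (for instance a countable one, such as the field of
algebraic numbers) and let `F_1, …, F_q` be very general forms over `k`, of degrees `d_1, …, d_q`, in
`N + 1` variables: all their coefficients together are algebraically independent over `k`. We consider
the strata `X` of `ℙ^N` given by the conditions `F_i = 0` (for some of the `i`) and `F_i ≠ 0` (for the
others), and their closed subvarieties; for instance the smooth complete intersections
`F_1 = ⋯ = F_q = 0`, and the complements of `F_1 = 0`. They are of log general type if the degrees are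
large, so that the question predicts (property (iii)) that their entire curves lie in a proper closed
subset.

Let `f` be a nonconstant holomorphic map from a connected open set `U` (for instance `U = ℂ`) to
`ℙ^N`, given by homogeneous coordinates, such that the Taylor coefficients, at some point of `U`, of
the coordinates and of the functions `F_i (f)` lie in a field of transcendence degree `T` over `k`. (If
`f` is a curve in `F_1 = ⋯ = F_q = 0` then the functions `F_i (f)` are zero; if `f` is an entire curve in
the complement of `F_1 = 0` then it has homogeneous coordinates with `F_1 (f) = 1`. In these cases the
condition is only on the coordinates.) If the Zariski closure of `f` has dimension `w`, then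

  `∑ i, (d_i + w).choose w ≤ T`.

So `f` is constant if `T < ∑ (d_i + 1)`, and is contained in an algebraic curve if
`T < ∑ (d_i + 2) (d_i + 1) / 2`. In particular, this is true for all curves given by solutions of
systems of algebraic differential equations `Q (y) y_j' = P_j (y)` over `k`, linear or not, of any
degree and with any number of unknown functions, for which the initial values have transcendence
degree `T` over `k` (`T` is at most the number of the unknown functions; complex parameters in the
equations are unknown functions with derivative `0`).

The bound is the number of conditions which a subvariety of dimension `w` imposes on the forms; for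
`w = 1` it is attained by the lines in hypersurfaces. The proof is elementary: the coefficients of the
`F_i` at the monomials in `w + 1` coordinates which are independent along `f` are determined by the
Taylor coefficients and by the other coefficients.
-/

set_option autoImplicit false

namespace Pool.Agent.Results.MP_64ff02_ag.FewParameters

open MvPolynomial Pool.Agent.Helper20.FP

/-- Let `F i` be forms of degrees `d i` whose coefficients are algebraically independent over `k`, and
`f` a holomorphic curve (homogeneous coordinates on a connected open set `U`) such that the coordinates
and the functions `F i (f)` depend on `T` parameters over `k` (their Taylor coefficients at a point are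
algebraic over a field generated by `T` elements over `k`), or are given by a solution of a system of
algebraic differential equations over `k` the initial values of which depend on `T` parameters.
(1) If `T < ∑ (d i + 1)` then `f` is constant. (2) If `T < ∑ (d i + w).choose w` then any `w + 1`
coordinates satisfy a nontrivial homogeneous equation along `f`, that is, the Zariski closure of the
curve has dimension smaller than `w`. -/
theorem result (k : Subfield ℂ) {q N : ℕ} (d : Fin q → ℕ)
    (F : Fin q → MvPolynomial (Fin (N + 1)) ℂ) (hF : VeryGeneral k d F) (U : Set ℂ)
    (hU : IsOpen U) (hUc : IsPreconnected U) (f : ℂ → Fin (N + 1) → ℂ)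
    (hf : ∀ j, DifferentiableOn ℂ (fun z => f z j) U) (T : ℕ)
    (hT : Parameters k U (coordValues F f) T ∨ SolvesODE k U (coordValues F f) T) :
    (T < ∑ i, (d i + 1) → ∀ i j, ∀ z ∈ U, ∀ z' ∈ U, f z i * f z' j = f z j * f z' i) ∧
    ∀ (w : ℕ) (σ : Fin (w + 1) → Fin (N + 1)), T < ∑ i, (d i + w).choose w →
      ∃ (e : ℕ) (G : MvPolynomial (Fin (w + 1)) ℂ), G.IsHomogeneous e ∧ G ≠ 0 ∧
        ∀ z ∈ U, eval (fun a => f z (σ a)) G = 0 := by
  have hf' : ∀ j, AnalyticOnNhd ℂ (fun z => f z j) U := fun j => (hf j).analyticOnNhd hU
  have hT' : Parameters k U (coordValues F f) T := hT.elim id fun h => h.parameters hU
  refine ⟨fun h i j => constant_of_lt hF hUc hf' hT' h i j, fun w σ h => ?_⟩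
  by_contra hcon
  push Not at hcon
  have h1 : IndepAlong U f σ := by
    intro G hG hz
    obtain ⟨e, he⟩ := hG
    by_contra hG0
    obtain ⟨z, hzU, hz'⟩ := hcon e G he hG0
    exact hz' (hz z hzU)
  exact absurd (bound hF hUc hf' hT' h1) (not_le.mpr h)

end Pool.Agent.Results.MP_64ff02_ag.FewParameters
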